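import Mathlib
import Pool.Agent.R621.HS.Dv7

set_option autoImplicit false

/-!
# The degree spectra of a divisible ordered group `V` and of the Presburger group `V × ℤ`
-/

namespace Pool.Agent.Results.MP_7e7dce_lc.SpectraEqual

open Pool.Agent.R621.BE Pool.Agent.R621.DV

theorem result (V : Type) [AddCommGroup V] [LinearOrder V] [IsOrderedAddMonoid V] [Countable V]
    [Nontrivial V] (hdiv : ∀ n : ℕ, 0 < n → ∀ v : V, ∃ w : V, n • w = v) :
    {d : TDeg | ∃ M : Str 1, M.IsCopy (G := V) ![0] ∧ deg M.diag = d} =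
      {d : TDeg | ∃ M : Str 2, M.IsCopy (G := V ×ₗ ℤ) ![0, toLex (0, 1)] ∧ deg M.diag = d} :=
  spectra_eq hdiv ![0] ![0, toLex (0, 1)]

end Pool.Agent.Results.MP_7e7dce_lc.SpectraEqual
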